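import Mathlib
import Pool.Agent.MP_653f52_an.Cont

/-!
Continuous time: a compact family of `2 × 2` matrices whose switching system is marginally
unstable, all of whose trajectories grow at most logarithmically.
-/

namespace Pool.Agent.Results.MP_653f52_an.ContinuousLogGrowth

open Pool.Agent.MP_653f52_an

theorem result : ∃ 𝒜 : Set (Matrix (Fin 2) (Fin 2) ℝ), 𝒜.Nonempty ∧ IsCompact 𝒜 ∧
    CMarginallyUnstable 𝒜 ∧ CSubpolynomial 𝒜 ∧ CLogGrowth 𝒜 :=
  ⟨famC, famC_nonempty, famC_compact, ⟨famC_lyapunov, famC_unbounded⟩,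
    csub_of_log famC_log, famC_log⟩

end Pool.Agent.Results.MP_653f52_an.ContinuousLogGrowth
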