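import Mathlib
import Pool.Agent.MP_653f52_an.Pair

/-!
Discrete time: a marginally unstable switching system consisting of only two matrices, all of
whose trajectories grow at most logarithmically.
-/

namespace Pool.Agent.Results.MP_653f52_an.PairLogGrowth

open Pool.Agent.MP_653f52_an

theorem result : ∃ O P : Matrix (Fin 6) (Fin 6) ℝ,
    DMarginallyUnstable {O, P} ∧ DSubpolynomial {O, P} ∧ DLogGrowth {O, P} :=
  ⟨matO al be, matP al be, ⟨jsr_of_log pair_log pair_fix, pair_unbounded⟩,
    dsub_of_log pair_log, pair_log⟩

end Pool.Agent.Results.MP_653f52_an.PairLogGrowth
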